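import Mathlib

open scoped ENNReal NNReal

namespace Pool.Agent.Lib.MP_6bd626_an

section Defs

variable (X : Type*) [NormedAddCommGroup X] [NormedSpace ℝ X]

/-- The vector space of Lipschitz functions on `X` vanishing at `0`. -/
def Lip0 : Submodule ℝ (X → ℝ) where
  carrier := {f | (∃ K : ℝ≥0, LipschitzWith K f) ∧ f 0 = 0}
  add_mem' := by
    rintro f g ⟨⟨K, hK⟩, hf⟩ ⟨⟨L, hL⟩, hg⟩
    exact ⟨⟨K + L, hK.add hL⟩, by simp [hf, hg]⟩
  zero_mem' := ⟨⟨0, LipschitzWith.const 0⟩, rfl⟩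
  smul_mem' := by
    rintro c f ⟨⟨K, hK⟩, hf⟩
    refine ⟨⟨‖c‖₊ * K, ?_⟩, by simp [hf]⟩
    refine LipschitzWith.of_dist_le_mul fun x y => ?_
    have := hK.dist_le_mul x y
    simp only [Pi.smul_apply, smul_eq_mul, Real.dist_eq, NNReal.coe_mul, coe_nnnorm] at this ⊢
    rw [← mul_sub, abs_mul, Real.norm_eq_abs, mul_assoc]
    exact mul_le_mul_of_nonneg_left this (abs_nonneg c)

variable {X}

/-- The norm of `Lip_0(X)`: the least Lipschitz constant. -/
noncomputable def lipConst (f : Lip0 X) : ℝ≥0 := sInf {K : ℝ≥0 | LipschitzWith K (f : X → ℝ)}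

variable (X)

/-- The embedding of the dual of `X` into `Lip_0(X)`. -/
def dualToLip0 (φ : X →L[ℝ] ℝ) : Lip0 X :=
  ⟨fun x => φ x, ⟨⟨‖φ‖₊, φ.lipschitz⟩, φ.map_zero⟩⟩

variable {X}

/-- Composition of a function in `Lip_0(X)` with a bounded linear automorphism. -/
def compAut (f : Lip0 X) (u : X ≃L[ℝ] X) : Lip0 X :=
  ⟨fun x => (f : X → ℝ) (u x), by
    obtain ⟨⟨K, hK⟩, hf⟩ := f.2
    refine ⟨⟨K * ‖(u : X →L[ℝ] X)‖₊, hK.comp (u : X →L[ℝ] X).lipschitz⟩, by simp [hf]⟩⟩

variable (X) in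
/-- The group of bounded linear automorphisms of `X`. -/
abbrev Aut : Type _ := X ≃L[ℝ] X

variable (X) in
/-- Linear maps from `Lip_0(X)` to the dual of `X`. -/
abbrev LipToDual : Type _ := Lip0 X →ₗ[ℝ] (X →L[ℝ] ℝ)

/-- Boundedness of a linear map `P` from `Lip_0(X)` to `X^*`. -/
def IsBdd (P : LipToDual X) : Prop := ∃ C : ℝ, ∀ f : Lip0 X, ‖P f‖ ≤ C * lipConst f

/-- `P` restricts to the identity on the copy of `X^*` in `Lip_0(X)`; together with the type of `P`
this says that `P` is a projection of `Lip_0(X)` onto `X^*`. -/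
def FixesDual (P : LipToDual X) : Prop := ∀ φ : X →L[ℝ] ℝ, P (dualToLip0 X φ) = φ

/-- Composition of an element of the dual of `X` with a bounded linear automorphism. -/
def compDual (φ : X →L[ℝ] ℝ) (u : Aut X) : X →L[ℝ] ℝ := φ.comp (u : X →L[ℝ] X)

/-- Equivariance: `P (f ∘ g⁻¹) = (P f) ∘ g⁻¹`. -/
def IsEquivariant {G : Type*} [Group G] (ρ : G →* Aut X) (P : LipToDual X) : Prop :=
  ∀ (g : G) (f : Lip0 X), P (compAut f (ρ g⁻¹)) = compDual (P f) (ρ g⁻¹)

/-- The equivariant dual lifting property of a `G`-space `X` whose action is given by a group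
homomorphism `ρ` from `G` to the group of bounded linear automorphisms of `X`. -/
def HasEquivariantDualLifting {G : Type*} [Group G] (ρ : G →* Aut X) : Prop :=
  ∃ P : LipToDual X, IsBdd P ∧ FixesDual P ∧ IsEquivariant ρ P

variable (X) in
/-- Some countable group `G` acts on `X` by linear isometries in such a way that the `G`-space `X`
fails the `G`-equivariant dual lifting property. -/
def FailsForCountableIsometricAction : Prop :=
  ∃ (G : Type) (_ : Group G) (ρ : G →* Aut X),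
    Countable G ∧ (∀ (g : G) (x : X), ‖ρ g x‖ = ‖x‖) ∧ ¬ HasEquivariantDualLifting ρ

end Defs

end Pool.Agent.Lib.MP_6bd626_an
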