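import Pool.Agent.Lib.MP_6bd626_an.Defs

open scoped ENNReal NNReal

namespace Pool.Agent.Lib.MP_6bd626_an

/-- The real Hilbert space of square summable sequences. -/
abbrev H : Type := lp (fun _ : ℕ => ℝ) 2

theorem htwo : (2 : ℝ≥0∞).toReal.HolderConjugate (2 : ℝ≥0∞).toReal := by
  norm_num
  exact Real.HolderConjugate.two_two

theorem toReal_two : (2 : ℝ≥0∞).toReal = 2 := by norm_num

theorem hasSum_sq (x : H) : HasSum (fun w => (x w) ^ 2) (‖x‖ ^ 2) := by
  have := lp.hasSum_norm (p := 2) (by norm_num) x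
  simpa [Real.norm_eq_abs] using this

/-- permutation of coordinates -/
noncomputable def permFun (σ : Equiv.Perm ℕ) (x : H) : H :=
  ⟨fun w => x (σ.symm w), by
    refine memℓp_gen ?_
    have := (lp.hasSum_norm (p := 2) (by norm_num) x).summable
    exact (Equiv.summable_iff σ.symm).2 this⟩

@[simp] theorem permFun_apply (σ : Equiv.Perm ℕ) (x : H) (w : ℕ) :
    permFun σ x w = x (σ.symm w) := rfl

theorem norm_permFun (σ : Equiv.Perm ℕ) (x : H) : ‖permFun σ x‖ = ‖x‖ := by
  have h1 := hasSum_sq (permFun σ x)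
  have h2 := hasSum_sq x
  have h3 : HasSum (fun w => (permFun σ x w) ^ 2) (‖x‖ ^ 2) := by
    simpa [Function.comp_def] using (Equiv.hasSum_iff σ.symm).2 h2
  have h4 := h1.unique h3
  exact (sq_eq_sq₀ (norm_nonneg _) (norm_nonneg _)).1 h4

/-- permutation of coordinates as a linear isometry equivalence -/
noncomputable def permIso (σ : Equiv.Perm ℕ) : H ≃ₗᵢ[ℝ] H where
  toFun := permFun σ
  invFun := permFun σ.symm
  left_inv x := by ext w; simp
  right_inv x := by ext w; simp
  map_add' x y := by ext w; simp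
  map_smul' c x := by ext w; simp
  norm_map' x := norm_permFun σ x

@[simp] theorem permIso_apply (σ : Equiv.Perm ℕ) (x : H) (w : ℕ) :
    permIso σ x w = x (σ.symm w) := rfl

/-- the action of the permutation group on `H` -/
noncomputable def permHom : Equiv.Perm ℕ →* (H ≃L[ℝ] H) where
  toFun σ := (permIso σ).toContinuousLinearEquiv
  map_one' := by
    ext x w
    rfl
  map_mul' σ τ := by
    ext x w
    rfl

theorem permHom_apply (σ : Equiv.Perm ℕ) (x : H) : permHom σ x = permIso σ x := rfl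

/-! ### The nonlinear functionals -/

theorem summable_mul_bdd (x y : H) (a : ℕ → ℝ) (A : ℝ) (ha : ∀ w, |a w| ≤ A) :
    Summable (fun w => x w * y w * a w) := by
  have h := (lp.summable_mul htwo x y).mul_right A
  refine Summable.of_norm_bounded h fun w => ?_
  simp only [norm_mul, Real.norm_eq_abs]
  exact mul_le_mul_of_nonneg_left (ha w) (by positivity)

theorem tsum_mul_bdd (x y : H) (a : ℕ → ℝ) (A : ℝ) (ha : ∀ w, |a w| ≤ A) :
    |∑' w, x w * y w * a w| ≤ A * (‖x‖ * ‖y‖) := by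
  have hA : 0 ≤ A := (abs_nonneg _).trans (ha 0)
  have h := lp.tsum_mul_le_mul_norm htwo x y
  have h1 : ‖∑' w, x w * y w * a w‖ ≤ ∑' w, ‖x w‖ * ‖y w‖ * A := by
    refine tsum_of_norm_bounded ((h.1.mul_right A).hasSum) fun w => ?_
    simp only [norm_mul, Real.norm_eq_abs]
    exact mul_le_mul_of_nonneg_left (ha w) (by positivity)
  rw [tsum_mul_right] at h1
  rw [← Real.norm_eq_abs]
  refine h1.trans ?_
  rw [mul_comm]
  exact mul_le_mul_of_nonneg_left h.2 hA

/-- the functional `F_ℓ(x) = ∑ (x(w)/‖x‖)² ℓ_w(x)` -/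
noncomputable def FF (l : ℕ → H → ℝ) (x : H) : ℝ := ∑' w, (x w / ‖x‖) ^ 2 * l w x

theorem FF_zero (l : ℕ → H → ℝ) : FF l 0 = 0 := by simp [FF]

theorem term_eq (x : H) (w : ℕ) (t : ℝ) :
    (x w / ‖x‖) ^ 2 * t = (‖x‖⁻¹ • x) w * (‖x‖⁻¹ • x) w * t := by
  simp only [lp.coeFn_smul, Pi.smul_apply, smul_eq_mul]
  ring

theorem summable_FF (l : ℕ → H → ℝ) (C : ℝ) (x y : H) (hl : ∀ w, |l w y| ≤ C) :
    Summable (fun w => (x w / ‖x‖) ^ 2 * l w y) := by
  simp_rw [term_eq]
  exact summable_mul_bdd _ _ _ C hl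

/-- the main Lipschitz estimate, one-sided version -/
theorem FF_sub_le (l : ℕ → H → ℝ) (C : ℝ) (hC : 0 ≤ C) (hl0 : ∀ w x, |l w x| ≤ C * ‖x‖)
    (hl : ∀ w x y, |l w x - l w y| ≤ C * ‖x - y‖) (x y : H) (hx : x ≠ 0) (hy : y ≠ 0)
    (_hxy : ‖y‖ ≤ ‖x‖) : |FF l x - FF l y| ≤ 5 * C * ‖x - y‖ := by
  have hx' : 0 < ‖x‖ := norm_pos_iff.2 hx
  have hy' : 0 < ‖y‖ := norm_pos_iff.2 hy
  set u : H := ‖x‖⁻¹ • x with hu
  set v : H := ‖y‖⁻¹ • y with hv
  have hun : ‖u‖ = 1 := by rw [hu, norm_smul, norm_inv, norm_norm, inv_mul_cancel₀ hx'.ne']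
  have hvn : ‖v‖ = 1 := by rw [hv, norm_smul, norm_inv, norm_norm, inv_mul_cancel₀ hy'.ne']
  have e1 : FF l x - FF l y
      = (∑' w, u w * u w * (l w x - l w y)) + ∑' w, (u - v) w * (u + v) w * l w y := by
    have s1 : Summable (fun w => u w * u w * l w x) := summable_mul_bdd _ _ _ _ (fun w => hl0 w x)
    have s2 : Summable (fun w => u w * u w * l w y) := summable_mul_bdd _ _ _ _ (fun w => hl0 w y)
    have s3 : Summable (fun w => v w * v w * l w y) := summable_mul_bdd _ _ _ _ (fun w => hl0 w y)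
    have t1 : FF l x = ∑' w, u w * u w * l w x := by
      unfold FF; simp_rw [term_eq]; rfl
    have t2 : FF l y = ∑' w, v w * v w * l w y := by
      unfold FF; simp_rw [term_eq]; rfl
    have t3 : (∑' w, u w * u w * (l w x - l w y))
        = (∑' w, u w * u w * l w x) - ∑' w, u w * u w * l w y := by
      rw [← s1.tsum_sub s2]
      exact tsum_congr fun w => by ring
    have t4 : (∑' w, (u - v) w * (u + v) w * l w y)
        = (∑' w, u w * u w * l w y) - ∑' w, v w * v w * l w y := by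
      rw [← s2.tsum_sub s3]
      refine tsum_congr fun w => ?_
      simp only [lp.coeFn_sub, lp.coeFn_add, Pi.sub_apply, Pi.add_apply]
      ring
    rw [t1, t2, t3, t4]
    ring
  have b1 : |∑' w, u w * u w * (l w x - l w y)| ≤ C * ‖x - y‖ := by
    have := tsum_mul_bdd u u (fun w => l w x - l w y) (C * ‖x - y‖) (fun w => hl w x y)
    simpa [hun] using this
  have b2 : |∑' w, (u - v) w * (u + v) w * l w y| ≤ C * ‖y‖ * (‖u - v‖ * 2) := by
    have h1 := tsum_mul_bdd (u - v) (u + v) (fun w => l w y) (C * ‖y‖) (fun w => hl0 w y)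
    refine h1.trans ?_
    have h2 : ‖u + v‖ ≤ 2 := by
      calc ‖u + v‖ ≤ ‖u‖ + ‖v‖ := norm_add_le _ _
        _ = 2 := by rw [hun, hvn]; norm_num
    gcongr
  have b3 : ‖y‖ * ‖u - v‖ ≤ 2 * ‖x - y‖ := by
    have e2 : ‖y‖ * ‖u - v‖ = ‖‖y‖ • (u - v)‖ := by rw [norm_smul, norm_norm]
    have e3 : ‖y‖ • (u - v) = (‖y‖ - ‖x‖) • u + (x - y) := by
      have h1 : ‖x‖ • u = x := by rw [hu, smul_smul, mul_inv_cancel₀ hx'.ne', one_smul]
      have h2 : ‖y‖ • v = y := by rw [hv, smul_smul, mul_inv_cancel₀ hy'.ne', one_smul]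
      rw [smul_sub, h2, sub_smul, h1]
      abel
    rw [e2, e3]
    calc ‖(‖y‖ - ‖x‖) • u + (x - y)‖ ≤ ‖(‖y‖ - ‖x‖) • u‖ + ‖x - y‖ := norm_add_le _ _
      _ = |‖y‖ - ‖x‖| + ‖x - y‖ := by rw [norm_smul, hun, mul_one, Real.norm_eq_abs]
      _ ≤ ‖x - y‖ + ‖x - y‖ := by
          gcongr
          rw [abs_sub_comm]
          exact abs_norm_sub_norm_le x y
      _ = 2 * ‖x - y‖ := by ring
  rw [e1]
  calc |(∑' w, u w * u w * (l w x - l w y)) + ∑' w, (u - v) w * (u + v) w * l w y|
      ≤ |∑' w, u w * u w * (l w x - l w y)| + |∑' w, (u - v) w * (u + v) w * l w y| :=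
        abs_add_le _ _
    _ ≤ C * ‖x - y‖ + C * ‖y‖ * (‖u - v‖ * 2) := add_le_add b1 b2
    _ = C * ‖x - y‖ + 2 * C * (‖y‖ * ‖u - v‖) := by ring
    _ ≤ C * ‖x - y‖ + 2 * C * (2 * ‖x - y‖) := by gcongr
    _ = 5 * C * ‖x - y‖ := by ring

theorem FF_le (l : ℕ → H → ℝ) (C : ℝ) (hl0 : ∀ w x, |l w x| ≤ C * ‖x‖) (x : H) :
    |FF l x| ≤ C * ‖x‖ := by
  by_cases hx : x = 0
  · subst hx; simp [FF_zero]
  have hx' : 0 < ‖x‖ := norm_pos_iff.2 hx
  have t1 : FF l x = ∑' w, (‖x‖⁻¹ • x) w * (‖x‖⁻¹ • x) w * l w x := by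
    unfold FF; simp_rw [term_eq]
  rw [t1]
  have := tsum_mul_bdd (‖x‖⁻¹ • x) (‖x‖⁻¹ • x) (fun w => l w x) (C * ‖x‖) (fun w => hl0 w x)
  have hun : ‖‖x‖⁻¹ • x‖ = 1 := by rw [norm_smul, norm_inv, norm_norm, inv_mul_cancel₀ hx'.ne']
  simpa [hun] using this

theorem FF_lip (l : ℕ → H → ℝ) (C : ℝ) (hC : 0 ≤ C) (hl0 : ∀ w x, |l w x| ≤ C * ‖x‖)
    (hl : ∀ w x y, |l w x - l w y| ≤ C * ‖x - y‖) (x y : H) :
    |FF l x - FF l y| ≤ 5 * C * ‖x - y‖ := by
  by_cases hx : x = 0
  · subst hx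
    rw [FF_zero, zero_sub, abs_neg, zero_sub, norm_neg]
    refine (FF_le l C hl0 y).trans ?_
    have : 0 ≤ C * ‖y‖ := by positivity
    linarith
  by_cases hy : y = 0
  · subst hy
    rw [FF_zero, sub_zero, sub_zero]
    refine (FF_le l C hl0 x).trans ?_
    have : 0 ≤ C * ‖x‖ := by positivity
    linarith
  rcases le_total ‖y‖ ‖x‖ with h | h
  · exact FF_sub_le l C hC hl0 hl x y hx hy h
  · rw [abs_sub_comm, norm_sub_rev]
    exact FF_sub_le l C hC hl0 hl y x hy hx h

theorem lipConst_le {X : Type*} [NormedAddCommGroup X] [NormedSpace ℝ X] (f : Lip0 X) (K : ℝ≥0)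
    (h : LipschitzWith K (f : X → ℝ)) : lipConst f ≤ K := csInf_le' h

/-! ### The combinatorial involutions -/

/-- first letter -/
def fst : ℕ → Option ℕ
  | 0 => none
  | n + 1 => some (Nat.unpair n).1

theorem infinite_fiber (i : ℕ) : {w | fst w = some i}.Infinite := by
  have : Function.Injective (fun m : ℕ => Nat.pair i m + 1) := by
    intro a b h
    have h' : Nat.pair i a = Nat.pair i b := by simpa using h
    have := congrArg Nat.unpair h'
    simpa using this
  refine Set.infinite_of_injective_forall_mem this fun m => ?_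
  simp [fst]

theorem exists_invol (i : ℕ) : ∃ σ : Equiv.Perm ℕ, (∀ w, σ (σ w) = w) ∧
    (∀ w, fst w ≠ some i → fst (σ w) = some i) := by
  classical
  let A : Set ℕ := {w | fst w = some i}
  have hA : A.Infinite := infinite_fiber i
  have hB : (Aᶜ).Infinite := by
    refine (infinite_fiber (i + 1)).mono fun w hw => ?_
    simp only [A, Set.mem_compl_iff, Set.mem_ofPred_eq] at hw ⊢
    rw [hw]; simp
  have : Infinite A := hA.to_subtype
  have : Infinite (Aᶜ : Set ℕ) := hB.to_subtype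
  obtain ⟨b⟩ : Nonempty ((Aᶜ : Set ℕ) ≃ A) := nonempty_equiv_of_countable
  let s : ℕ → ℕ := fun w => if h : w ∈ A then (b.symm ⟨w, h⟩ : ℕ) else (b ⟨w, h⟩ : ℕ)
  have hs : Function.Involutive s := by
    intro w
    by_cases h : w ∈ A
    · have h1 : s w = (b.symm ⟨w, h⟩ : ℕ) := by simp only [s, dif_pos h]
      have h2 : (b.symm ⟨w, h⟩ : ℕ) ∉ A := (b.symm ⟨w, h⟩).2
      rw [h1]
      simp only [s, dif_neg h2, Subtype.coe_eta, Equiv.apply_symm_apply]
    · have h1 : s w = (b ⟨w, h⟩ : ℕ) := by simp only [s, dif_neg h]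
      have h2 : (b ⟨w, h⟩ : ℕ) ∈ A := (b ⟨w, h⟩).2
      rw [h1]
      simp only [s, dif_pos h2, Subtype.coe_eta, Equiv.symm_apply_apply]
  refine ⟨hs.toPerm, hs, fun w hw => ?_⟩
  have h : w ∉ A := hw
  have h1 : s w = (b ⟨w, h⟩ : ℕ) := by simp only [s, dif_neg h]
  have h2 : (b ⟨w, h⟩ : ℕ) ∈ A := (b ⟨w, h⟩).2
  change fst (s w) = some i
  rw [h1]
  exact h2

/-- the involutions -/
noncomputable def sg (i : ℕ) : Equiv.Perm ℕ := (exists_invol i).choose

theorem sg_sg (i w : ℕ) : sg i (sg i w) = w := (exists_invol i).choose_spec.1 w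

theorem sg_symm (i w : ℕ) : (sg i).symm w = sg i w := by
  rw [Equiv.symm_apply_eq, sg_sg]

theorem fst_sg (i w : ℕ) (h : fst w ≠ some i) : fst (sg i w) = some i :=
  (exists_invol i).choose_spec.2 w h

theorem fst_sg_zero (i : ℕ) : fst (sg i 0) = some i := fst_sg i 0 (by simp [fst])

theorem sg_zero_inj : Function.Injective (fun i => sg i 0) := by
  intro i j h
  have h1 := fst_sg_zero i
  have h2 := fst_sg_zero j
  simp only at h
  rw [h, h2] at h1
  simpa using h1.symm

/-- the functionals `ℓ_w(x) = x(σ_i(0))` where `i` is the first letter of `w`. -/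
noncomputable def ell (w : ℕ) (x : H) : ℝ :=
  match fst w with
  | none => 0
  | some i => x (sg i 0)

theorem norm_coord_le (x : H) (w : ℕ) : |x w| ≤ ‖x‖ := by
  have := lp.norm_apply_le_norm (p := 2) (by norm_num) x w
  simpa [Real.norm_eq_abs] using this

theorem ell_zero_bd (w : ℕ) (x : H) : |ell w x| ≤ 1 * ‖x‖ := by
  unfold ell
  cases fst w with
  | none => simp
  | some i => rw [one_mul]; exact norm_coord_le x _

theorem ell_bd (w : ℕ) (x y : H) : |ell w x - ell w y| ≤ 1 * ‖x - y‖ := by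
  have h : ell w x - ell w y = ell w (x - y) := by
    unfold ell
    cases fst w with
    | none => simp
    | some i => simp
  rw [h]
  exact ell_zero_bd w _

/-- the basic function -/
noncomputable def f0 : Lip0 H :=
  ⟨FF ell, ⟨⟨5, by
    refine LipschitzWith.of_dist_le_mul fun x y => ?_
    rw [Real.dist_eq, dist_eq_norm]
    have := FF_lip ell 1 zero_le_one ell_zero_bd ell_bd x y
    simpa using this⟩, FF_zero ell⟩⟩

/-- coordinate functional at `0` -/
noncomputable def e0 : H →L[ℝ] ℝ := lp.evalCLM ℝ (fun _ : ℕ => ℝ) 2 0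

theorem e0_apply (x : H) : e0 x = x 0 := rfl

/-- local functionals -/
noncomputable def ell' (i : ℕ) (w : ℕ) (x : H) : ℝ := ell (sg i w) (permIso (sg i) x) - x 0

theorem ell'_eq_zero (i w : ℕ) (h : fst w ≠ some i) (x : H) : ell' i w x = 0 := by
  unfold ell' ell
  rw [fst_sg i w h]
  simp only [permIso_apply, sg_symm, sg_sg, sub_self]

theorem ell'_bd (i w : ℕ) (x : H) : |ell' i w x| ≤ 2 * ‖x‖ := by
  unfold ell'
  have h1 := ell_zero_bd (sg i w) (permIso (sg i) x)
  rw [LinearIsometryEquiv.norm_map] at h1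
  have h2 := norm_coord_le x 0
  calc |ell (sg i w) (permIso (sg i) x) - x 0|
      ≤ |ell (sg i w) (permIso (sg i) x)| + |x 0| := abs_sub _ _
    _ ≤ 1 * ‖x‖ + ‖x‖ := add_le_add h1 h2
    _ = 2 * ‖x‖ := by ring

theorem ell'_sub (i w : ℕ) (x y : H) : ell' i w x - ell' i w y = ell' i w (x - y) := by
  unfold ell' ell
  cases fst (sg i w) with
  | none => simp; ring
  | some j => simp; ring

theorem sum_ell'_bd (n w : ℕ) (x : H) : |∑ i ∈ Finset.range n, ell' i w x| ≤ 2 * ‖x‖ := by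
  by_cases h : ∃ i, fst w = some i
  · obtain ⟨i, hi⟩ := h
    by_cases hin : i ∈ Finset.range n
    · rw [Finset.sum_eq_single_of_mem i hin]
      · exact ell'_bd i w x
      · intro j _ hj
        apply ell'_eq_zero
        rw [hi]
        intro h'
        exact hj (Option.some_injective _ h').symm
    · rw [Finset.sum_eq_zero]
      · simp
      · intro j hj
        apply ell'_eq_zero
        rw [hi]
        intro h'
        rw [Option.some_injective _ h'] at hin
        exact hin hj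
  · rw [Finset.sum_eq_zero]
    · simp
    · intro j _
      apply ell'_eq_zero
      intro h'
      exact h ⟨j, h'⟩

theorem FF_comp (i : ℕ) (x : H) : FF ell (permIso (sg i) x) - x 0 = FF (ell' i) x := by
  by_cases hx : x = 0
  · subst hx
    simp [FF_zero]
  have hx' : 0 < ‖x‖ := norm_pos_iff.2 hx
  have h1 : FF ell (permIso (sg i) x)
      = ∑' w, (x w / ‖x‖) ^ 2 * ell (sg i w) (permIso (sg i) x) := by
    unfold FF
    rw [← Equiv.tsum_eq (sg i)]
    refine tsum_congr fun w => ?_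
    simp only [permIso_apply, sg_symm, sg_sg, LinearIsometryEquiv.norm_map]
  have h2 : HasSum (fun w => (x w / ‖x‖) ^ 2 * x 0) (x 0) := by
    have h3 := ((hasSum_sq x).div_const (‖x‖ ^ 2)).mul_right (x 0)
    rw [div_self (by positivity), one_mul] at h3
    simpa [div_pow] using h3
  have h4 : Summable (fun w => (x w / ‖x‖) ^ 2 * ell (sg i w) (permIso (sg i) x)) := by
    have := summable_FF (fun w _ => ell (sg i w) (permIso (sg i) x)) (1 * ‖x‖) x x
      (fun w => by
        have := ell_zero_bd (sg i w) (permIso (sg i) x)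
        rwa [LinearIsometryEquiv.norm_map] at this)
    simpa using this
  have h5 : FF (ell' i) x = (∑' w, (x w / ‖x‖) ^ 2 * ell (sg i w) (permIso (sg i) x))
      - ∑' w, (x w / ‖x‖) ^ 2 * x 0 := by
    rw [← h4.tsum_sub h2.summable]
    unfold FF ell'
    refine tsum_congr fun w => ?_
    ring
  rw [h1, h5, h2.tsum_eq]

theorem sum_FF (n : ℕ) (x : H) :
    ∑ i ∈ Finset.range n, FF (ell' i) x = FF (fun w x => ∑ i ∈ Finset.range n, ell' i w x) x := by
  unfold FF
  rw [← Summable.tsum_finsetSum]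
  · refine tsum_congr fun w => ?_
    rw [Finset.mul_sum]
  · intro i _
    exact summable_FF (ell' i) (2 * ‖x‖) x x (fun w => ell'_bd i w x)

theorem sum_lip (n : ℕ) (x y : H) :
    |(∑ i ∈ Finset.range n, (FF ell (permIso (sg i) x) - x 0)) -
      ∑ i ∈ Finset.range n, (FF ell (permIso (sg i) y) - y 0)| ≤ 10 * ‖x - y‖ := by
  simp_rw [FF_comp, sum_FF]
  have := FF_lip (fun w x => ∑ i ∈ Finset.range n, ell' i w x) 2 (by norm_num)
    (fun w x => sum_ell'_bd n w x) (fun w x y => by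
      rw [← Finset.sum_sub_distrib]
      simp_rw [ell'_sub]
      exact sum_ell'_bd n w (x - y)) x y
  refine this.trans (le_of_eq ?_)
  norm_num

theorem norm_sum_single_sg (n : ℕ) :
    ‖∑ i ∈ Finset.range n, (lp.single 2 (sg i 0) (1 : ℝ) : H)‖ ^ 2 = n := by
  classical
  have h1 : ∑ i ∈ Finset.range n, (lp.single 2 (sg i 0) (1 : ℝ) : H)
      = ∑ w ∈ (Finset.range n).image (fun i => sg i 0), (lp.single 2 w ((fun _ => (1 : ℝ)) w) : H) := by
    rw [Finset.sum_image]
    intro i _ j _ h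
    exact sg_zero_inj h
  rw [h1]
  have h2 := lp.norm_sum_single (E := fun _ : ℕ => ℝ) (p := 2) (by norm_num) (fun _ => (1 : ℝ))
    ((Finset.range n).image (fun i => sg i 0))
  rw [toReal_two] at h2
  have h3 : ((Finset.range n).image (fun i => sg i 0)).card = n := by
    rw [Finset.card_image_of_injective _ sg_zero_inj, Finset.card_range]
  simpa [h3] using h2

theorem permIso_single (i : ℕ) :
    permIso (sg i) (lp.single 2 0 (1 : ℝ) : H) = (lp.single 2 (sg i 0) (1 : ℝ) : H) := by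
  classical
  ext w
  rw [permIso_apply, sg_symm]
  by_cases h : w = sg i 0
  · subst h
    rw [sg_sg]
    simp
  · rw [lp.single_apply_ne _ _ _ h, lp.single_apply_ne]
    intro h'
    apply h
    rw [← h', sg_sg]

/-- The coordinate-permutation action of the free group on countably many generators, where the
`i`-th generator acts through the involution `sg i`. -/
noncomputable def act : FreeGroup ℕ →* (H ≃L[ℝ] H) := permHom.comp (FreeGroup.lift sg)

theorem act_of_inv (i : ℕ) (x : H) : act (FreeGroup.of i)⁻¹ x = permIso (sg i) x := by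
  have h : (sg i)⁻¹ = sg i := by
    ext w
    exact sg_symm i w
  simp only [act, MonoidHom.comp_apply, map_inv, FreeGroup.lift_apply_of]
  rw [← map_inv, h]
  rfl

theorem not_lifting : ¬ HasEquivariantDualLifting act := by
  rintro ⟨P, ⟨C, hC⟩, hproj, hequi⟩
  -- the finite sums
  let u : ℕ → Lip0 H := fun i => compAut f0 (act (FreeGroup.of i)⁻¹) - dualToLip0 H e0
  have hu : ∀ i (x : H), (u i : H → ℝ) x = FF ell (permIso (sg i) x) - x 0 := by
    intro i x
    have : (u i : H → ℝ) x = FF ell (act (FreeGroup.of i)⁻¹ x) - e0 x := rfl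
    rw [this, act_of_inv, e0_apply]
  let d : H := lp.single 2 0 (1 : ℝ)
  have hPu : ∀ i, P (u i) d = P f0 (lp.single 2 (sg i 0) (1 : ℝ) : H) - 1 := by
    intro i
    have h1 : P (u i) = P (compAut f0 (act (FreeGroup.of i)⁻¹)) - P (dualToLip0 H e0) :=
      map_sub P _ _
    have h2 : e0 d = 1 := by
      rw [e0_apply]
      exact lp.single_apply_self _ _ _
    have h3 : P (compAut f0 (act (FreeGroup.of i)⁻¹)) d = P f0 (act (FreeGroup.of i)⁻¹ d) := by
      rw [hequi]
      rfl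
    rw [h1, hproj, sub_apply, h3, act_of_inv, permIso_single, h2]
  have hmain : ∀ n : ℕ, (n : ℝ) ≤ |C| * 10 + ‖P f0‖ * Real.sqrt n := by
    intro n
    let h : Lip0 H := ∑ i ∈ Finset.range n, u i
    have hh : ∀ x : H, (h : H → ℝ) x = ∑ i ∈ Finset.range n, (FF ell (permIso (sg i) x) - x 0) := by
      intro x
      have : (h : H → ℝ) = ∑ i ∈ Finset.range n, (u i : H → ℝ) := by
        simp only [h, Submodule.coe_sum]
      rw [this, Finset.sum_apply]
      exact Finset.sum_congr rfl fun i _ => hu i x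
    have hlip : LipschitzWith 10 (h : H → ℝ) := by
      refine LipschitzWith.of_dist_le_mul fun x y => ?_
      rw [Real.dist_eq, dist_eq_norm, hh, hh]
      exact sum_lip n x y
    have hd : ‖d‖ = 1 := by
      simp only [d]
      rw [lp.norm_single (by norm_num)]
      simp
    have h1 : |P h d| ≤ |C| * 10 := by
      calc |P h d| = ‖P h d‖ := rfl
        _ ≤ ‖P h‖ * ‖d‖ := (P h).le_opNorm d
        _ = ‖P h‖ := by rw [hd, mul_one]
        _ ≤ C * lipConst h := hC h
        _ ≤ |C| * lipConst h := by gcongr; exact le_abs_self C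
        _ ≤ |C| * 10 := by
          gcongr
          have := lipConst_le h 10 hlip
          exact_mod_cast this
    have h2 : P h d = P f0 (∑ i ∈ Finset.range n, (lp.single 2 (sg i 0) (1 : ℝ) : H)) - n := by
      have e1 : P h = ∑ i ∈ Finset.range n, P (u i) := map_sum P _ _
      rw [e1, sum_apply, map_sum]
      simp_rw [hPu]
      rw [Finset.sum_sub_distrib]
      simp
    have h3 : |P f0 (∑ i ∈ Finset.range n, (lp.single 2 (sg i 0) (1 : ℝ) : H))|
        ≤ ‖P f0‖ * Real.sqrt n := by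
      refine ((P f0).le_opNorm _).trans ?_
      gcongr
      rw [← norm_sum_single_sg n, Real.sqrt_sq (norm_nonneg _)]
    have h4 := abs_le.1 h1
    have h5 := abs_le.1 h3
    rw [h2] at h4
    linarith [h4.1, h5.2]
  obtain ⟨k, hk⟩ := exists_nat_gt (|C| * 10 + ‖P f0‖ + 1)
  have hk0 : (0 : ℝ) ≤ ‖P f0‖ := norm_nonneg _
  have hk1 : (0 : ℝ) ≤ |C| := abs_nonneg C
  have hk2 : (1 : ℝ) < k := by linarith
  have := hmain (k ^ 2)
  push_cast at this
  rw [Real.sqrt_sq (by positivity)] at this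
  nlinarith [mul_le_mul_of_nonneg_left hk2.le hk1, mul_pos (show (0:ℝ) < k by linarith) (show (0:ℝ) < k - 1 by linarith)]

end Pool.Agent.Lib.MP_6bd626_an
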